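import Pool.Agent.RDO.Stmts

/-! ANG: the mean of the volume of `Aw` over the angles -/

set_option autoImplicit false

open MeasureTheory Module Submodule

open scoped ENNReal Pointwise

namespace Pool.Agent.RDO.H15

open Pool.Agent.RDO

theorem ev_cont : Continuous ev := by
  unfold ev
  fun_prop

theorem ang_fub (rot : RotStmt) (q : ℝ) (U : Set P2) (hU : MeasurableSet U) (g : P2 → P2)
    (hg : Measurable g) :
    ∫⁻ θ in Set.Ioc 0 (2 * Real.pi), volume {z : P2 | z ∈ U ∧ q ≤ inner ℝ (g z) (ev θ)} =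
      ∫⁻ z in U, volume {θ : ℝ | θ ∈ Set.Ioc 0 (2 * Real.pi) ∧ q ≤ ‖g z‖ * Real.cos θ} := by
  set S : Set (ℝ × P2) := {p | p.2 ∈ U ∧ q ≤ inner ℝ (g p.2) (ev p.1)} with hS
  have e1 : Measurable fun p : ℝ × P2 => g p.2 := hg.comp measurable_snd
  have e2 : Measurable fun p : ℝ × P2 => ev p.1 := ev_cont.measurable.comp measurable_fst
  have e3 : Measurable fun p : ℝ × P2 => inner ℝ (g p.2) (ev p.1) := e1.inner (𝕜 := ℝ) e2
  have hS1 : MeasurableSet {p : ℝ × P2 | p.2 ∈ U} := measurable_snd hU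
  have hS2 : MeasurableSet {p : ℝ × P2 | q ≤ inner ℝ (g p.2) (ev p.1)} :=
    measurableSet_le (measurable_const (a := q)) e3
  have hSm : MeasurableSet S := hS1.inter hS2
  have h1 := Measure.prod_apply (μ := volume.restrict (Set.Ioc 0 (2 * Real.pi)))
    (ν := (volume : Measure P2)) hSm
  have h2 := Measure.prod_apply_symm (μ := volume.restrict (Set.Ioc 0 (2 * Real.pi)))
    (ν := (volume : Measure P2)) hSm
  rw [h1] at h2
  have h3 : ∫⁻ θ in Set.Ioc 0 (2 * Real.pi), volume (Prod.mk θ ⁻¹' S) =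
      ∫⁻ θ in Set.Ioc 0 (2 * Real.pi), volume {z : P2 | z ∈ U ∧ q ≤ inner ℝ (g z) (ev θ)} := rfl
  rw [← h3, h2, ← lintegral_indicator hU]
  refine lintegral_congr fun z => ?_
  rw [Measure.restrict_apply' measurableSet_Ioc]
  by_cases hz : z ∈ U
  · rw [Set.indicator_of_mem hz, ← rot q (g z)]
    congr 1
    ext θ
    constructor
    · rintro ⟨⟨_, h⟩, h'⟩
      exact ⟨h', h⟩
    · rintro ⟨h', h⟩
      exact ⟨⟨hz, h⟩, h'⟩
  · rw [Set.indicator_of_notMem hz]
    have : (fun x : ℝ => (x, z)) ⁻¹' S = ∅ := by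
      ext θ
      constructor
      · rintro ⟨h, _⟩
        exact absurd h hz
      · intro h
        exact absurd h (Set.notMem_empty _)
    rw [this, Set.empty_inter, measure_empty]

theorem ang (dom : DomStmt) (rot : RotStmt) (rcp : RcpStmt) : AngStmt := by
  intro n c k hk q hq
  have hUn : MeasurableSet (Un c) := MeasurableSet.iUnion fun i => measurableSet_closedBall
  have hfin : ∀ u : ℝ, volume {θ : ℝ | θ ∈ Set.Ioc 0 (2 * Real.pi) ∧ q ≤ u * Real.cos θ} ≠ ⊤ := by
    intro u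
    refine ne_top_of_le_ne_top ?_ (measure_mono (fun θ h => h.1))
    rw [Real.volume_Ioc]
    exact ENNReal.ofReal_ne_top
  set Ψ : ℝ → ℝ := fun u =>
    (volume {θ : ℝ | θ ∈ Set.Ioc 0 (2 * Real.pi) ∧ q ≤ max u 0 * Real.cos θ}).toReal with hΨ
  have hΨ1 : Monotone Ψ := by
    intro u v huv
    refine ENNReal.toReal_mono (hfin _) (measure_mono ?_)
    rintro θ ⟨h1, h2⟩
    refine ⟨h1, h2.trans ?_⟩
    have h3 : 0 < Real.cos θ := by
      by_contra hcon
      push Not at hcon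
      have := mul_nonpos_of_nonneg_of_nonpos (le_max_right u 0) hcon
      linarith
    exact mul_le_mul_of_nonneg_right (max_le_max_right 0 huv) h3.le
  have hΨ2 : ∀ u, 0 ≤ u → ENNReal.ofReal (Ψ u) =
      volume {θ : ℝ | θ ∈ Set.Ioc 0 (2 * Real.pi) ∧ q ≤ u * Real.cos θ} := by
    intro u hu
    rw [hΨ]
    simp only [max_eq_left hu]
    exact ENNReal.ofReal_toReal (hfin _)
  have h1 := dom n c k hk Ψ hΨ1 (fun u => ENNReal.toReal_nonneg)
  have h2 : ∫⁻ θ in Set.Ioc 0 (2 * Real.pi), volume (Aw c k q θ) =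
      ∫⁻ z in Un c, ENNReal.ofReal (Ψ (dist z (c (k z)))) := by
    have h3 := ang_fub rot q (Un c) hUn (fun z => c (k z) - z)
      (((measurable_from_top (f := c)).comp hk.meas).sub measurable_id)
    refine Eq.trans h3 (lintegral_congr fun z => ?_)
    rw [hΨ2 _ dist_nonneg, dist_comm, dist_eq_norm]
  have h4 : ∫⁻ x in Metric.closedBall (0 : P2) 1, ENNReal.ofReal (Ψ ‖x‖) =
      ENNReal.ofReal (2 * Real.pi) * volume (Cap q) := by
    have h3 := ang_fub rot q (Metric.closedBall (0 : P2) 1) measurableSet_closedBall (fun x => x)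
      measurable_id
    have h5 : ∫⁻ x in Metric.closedBall (0 : P2) 1, ENNReal.ofReal (Ψ ‖x‖) =
        ∫⁻ z in Metric.closedBall (0 : P2) 1,
          volume {θ : ℝ | θ ∈ Set.Ioc 0 (2 * Real.pi) ∧ q ≤ ‖z‖ * Real.cos θ} :=
      lintegral_congr fun z => hΨ2 _ (norm_nonneg z)
    rw [h5, ← h3]
    have h6 : ∫⁻ θ in Set.Ioc 0 (2 * Real.pi),
        volume {z : P2 | z ∈ Metric.closedBall (0 : P2) 1 ∧ q ≤ inner ℝ z (ev θ)} =
        ∫⁻ _ in Set.Ioc 0 (2 * Real.pi), volume (Cap q) :=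
      lintegral_congr fun θ => rcp q θ
    rw [h6, lintegral_const, Measure.restrict_apply_univ, Real.volume_Ioc, sub_zero, mul_comm]
  rw [h2, ← h4]
  exact h1

end Pool.Agent.RDO.H15
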